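import Pool.Agent.Helper81.AD2.Goals

/-! TLL: orders and permutations have the same number. -/

namespace Pool.Agent.Helper55.AD2.TLL

open Pool.Agent.Helper88.AD Pool.Agent.Helper81.AD2

theorem card_false {d : ℕ}
    (P : Equiv.Perm (Fin d) → Equiv.Perm (Fin d) → (Fin d → Bool) → Prop) :
    Nat.card {p : (Bool → Equiv.Perm (Fin d)) × (Fin d → Bool) // P (p.1 false) (p.1 true) p.2} =
      ∑ q : Equiv.Perm (Fin d) × (Fin d → Bool),
        Nat.card {σ : Equiv.Perm (Fin d) // P σ q.1 q.2} := by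
  rw [← Nat.card_sigma]
  refine Nat.card_congr
    { toFun := fun p => ⟨(p.1.1 true, p.1.2), ⟨p.1.1 false, p.2⟩⟩
      invFun := fun x => ⟨(fun b => bif b then x.1.1 else x.2.1, x.1.2), x.2.2⟩
      left_inv := ?_
      right_inv := ?_ }
  · rintro ⟨⟨s, e⟩, h⟩
    apply Subtype.ext
    apply Prod.ext
    · funext b
      cases b <;> rfl
    · rfl
  · rintro ⟨⟨s, e⟩, h⟩
    rfl

theorem card_true {d : ℕ}
    (P : Equiv.Perm (Fin d) → Equiv.Perm (Fin d) → (Fin d → Bool) → Prop) :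
    Nat.card {p : (Bool → Equiv.Perm (Fin d)) × (Fin d → Bool) // P (p.1 false) (p.1 true) p.2} =
      ∑ q : Equiv.Perm (Fin d) × (Fin d → Bool),
        Nat.card {σ : Equiv.Perm (Fin d) // P q.1 σ q.2} := by
  rw [← Nat.card_sigma]
  refine Nat.card_congr
    { toFun := fun p => ⟨(p.1.1 false, p.1.2), ⟨p.1.1 true, p.2⟩⟩
      invFun := fun x => ⟨(fun b => bif b then x.2.1 else x.1.1, x.1.2), x.2.2⟩
      left_inv := ?_
      right_inv := ?_ }
  · rintro ⟨⟨s, e⟩, h⟩
    apply Subtype.ext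
    apply Prod.ext
    · funext b
      cases b <;> rfl
    · rfl
  · rintro ⟨⟨s, e⟩, h⟩
    rfl

/-- Both kinds ordered. -/
def P0 {d : ℕ} (s t : Equiv.Perm (Fin d)) (ε : Fin d → Bool) : Prop :=
  ∃ f : Pt d → ℕ, Dir ε f ∧ (∀ i j, t i < t j → f (i, true) < f (j, true)) ∧
    ∀ i j, s i < s j → f (i, false) < f (j, false)

/-- Tails ordered, heads permuted. -/
def P1 {d : ℕ} (s t : Equiv.Perm (Fin d)) (ε : Fin d → Bool) : Prop :=
  ∃ f : Pt d → ℕ, Dir ε f ∧ (∀ i j, t i < t j → f (i, true) < f (j, true)) ∧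
    ∀ i, f (s i, false) = f (i, false)

/-- Both kinds permuted. -/
def P2 {d : ℕ} (s t : Equiv.Perm (Fin d)) (ε : Fin d → Bool) : Prop :=
  ∃ f : Pt d → ℕ, Dir ε f ∧ (∀ i, f (t i, true) = f (i, true)) ∧
    ∀ i, f (s i, false) = f (i, false)

/-- The inequalities of the directions. -/
def DirR {d : ℕ} (ε : Fin d → Bool) (a b : Pt d) : Prop :=
  ∃ i, (ε i = true ∧ a = (i, true) ∧ b = (i, false)) ∨
    (ε i = false ∧ a = (i, false) ∧ b = (i, true))

theorem dir_iff {d : ℕ} (ε : Fin d → Bool) (f : Pt d → ℕ) :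
    Dir ε f ↔ ∀ a b, DirR ε a b → f a < f b := by
  constructor
  · rintro h a b ⟨i, ⟨h1, rfl, rfl⟩ | ⟨h1, rfl, rfl⟩⟩
    · exact (h i).1 h1
    · exact (h i).2 h1
  · intro h i
    exact ⟨fun h1 => h _ _ ⟨i, Or.inl ⟨h1, rfl, rfl⟩⟩, fun h1 => h _ _ ⟨i, Or.inr ⟨h1, rfl, rfl⟩⟩⟩

theorem step1 (h : S_TL) {d : ℕ} (t : Equiv.Perm (Fin d)) (ε : Fin d → Bool) :
    Nat.card {s : Equiv.Perm (Fin d) // P0 s t ε} =
      Nat.card {s : Equiv.Perm (Fin d) // P1 s t ε} := by
  have key := h (Pt d) d (fun i => (i, false))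
    (fun a b => DirR ε a b ∨ ∃ i j, t i < t j ∧ a = (i, true) ∧ b = (j, true))
    (fun _ _ => False) (by
      intro i j hij hE
      have h0 : ∀ a b : Pt d, Relation.EqvGen (fun _ _ => False) a b → a = b := by
        intro a b hab
        induction hab with
        | rel _ _ h => exact h.elim
        | refl _ => rfl
        | symm _ _ _ ih => exact ih.symm
        | trans _ _ _ _ _ ih1 ih2 => exact ih1.trans ih2
      exact hij (congrArg Prod.fst (h0 _ _ hE)))
  unfold No Nc at key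
  have hD : ∀ f : Pt d → ℕ, (∀ a b, (DirR ε a b ∨ ∃ i j, t i < t j ∧ a = (i, true) ∧
      b = (j, true)) → f a < f b) ↔
      (Dir ε f ∧ (∀ i j, t i < t j → f (i, true) < f (j, true))) := by
    intro f
    rw [dir_iff]
    constructor
    · intro h1
      exact ⟨fun a b hab => h1 a b (Or.inl hab), fun i j hij => h1 _ _ (Or.inr ⟨i, j, hij, rfl, rfl⟩)⟩
    · rintro ⟨h1, h2⟩ a b (hab | ⟨i, j, hij, rfl, rfl⟩)
      · exact h1 a b hab
      · exact h2 i j hij
  refine Eq.trans (Nat.card_congr (Equiv.subtypeEquivRight fun s => ?_))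
    (key.trans (Nat.card_congr (Equiv.subtypeEquivRight fun s => ?_)))
  · constructor
    · rintro ⟨f, h1, h2, h3⟩
      exact ⟨f, (hD f).2 ⟨h1, h2⟩, fun _ _ h => h.elim, h3⟩
    · rintro ⟨f, h1, _, h3⟩
      obtain ⟨h4, h5⟩ := (hD f).1 h1
      exact ⟨f, h4, h5, h3⟩
  · constructor
    · rintro ⟨f, h1, _, h3⟩
      obtain ⟨h4, h5⟩ := (hD f).1 h1
      exact ⟨f, h4, h5, h3⟩
    · rintro ⟨f, h1, h2, h3⟩
      exact ⟨f, (hD f).2 ⟨h1, h2⟩, fun _ _ h => h.elim, h3⟩

theorem step2 (h : S_TL) {d : ℕ} (s : Equiv.Perm (Fin d)) (ε : Fin d → Bool) :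
    Nat.card {t : Equiv.Perm (Fin d) // P1 s t ε} =
      Nat.card {t : Equiv.Perm (Fin d) // P2 s t ε} := by
  have key := h (Pt d) d (fun i => (i, true)) (DirR ε)
    (fun a b => ∃ i, a = (s i, false) ∧ b = (i, false)) (by
      intro i j hij hE
      have h0 : ∀ a b : Pt d, Relation.EqvGen
          (fun a b => ∃ i, a = (s i, false) ∧ b = (i, false)) a b →
          a = b ∨ (a.2 = false ∧ b.2 = false) := by
        intro a b hab
        induction hab with
        | rel _ _ h =>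
          obtain ⟨i, rfl, rfl⟩ := h
          exact Or.inr ⟨rfl, rfl⟩
        | refl _ => exact Or.inl rfl
        | symm _ _ _ ih =>
          rcases ih with ih | ih
          · exact Or.inl ih.symm
          · exact Or.inr ⟨ih.2, ih.1⟩
        | trans _ _ _ _ _ ih1 ih2 =>
          rcases ih1 with ih1 | ih1
          · rw [ih1]; exact ih2
          · rcases ih2 with ih2 | ih2
            · rw [← ih2]; exact Or.inr ih1
            · exact Or.inr ⟨ih1.1, ih2.2⟩
      rcases h0 _ _ hE with h1 | h1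
      · exact hij (congrArg Prod.fst h1)
      · exact absurd h1.1 (by simp))
  unfold No Nc at key
  have hE : ∀ f : Pt d → ℕ, (∀ a b, (∃ i, a = (s i, false) ∧ b = (i, false)) → f a = f b) ↔
      ∀ i, f (s i, false) = f (i, false) := by
    intro f
    constructor
    · intro h1 i
      exact h1 _ _ ⟨i, rfl, rfl⟩
    · rintro h1 a b ⟨i, rfl, rfl⟩
      exact h1 i
  refine Eq.trans (Nat.card_congr (Equiv.subtypeEquivRight fun t => ?_))
    (key.trans (Nat.card_congr (Equiv.subtypeEquivRight fun t => ?_)))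
  · constructor
    · rintro ⟨f, h1, h2, h3⟩
      exact ⟨f, (dir_iff ε f).1 h1, (hE f).2 h3, h2⟩
    · rintro ⟨f, h1, h2, h3⟩
      exact ⟨f, (dir_iff ε f).2 h1, h3, (hE f).1 h2⟩
  · constructor
    · rintro ⟨f, h1, h2, h3⟩
      exact ⟨f, (dir_iff ε f).2 h1, h3, (hE f).1 h2⟩
    · rintro ⟨f, h1, h2, h3⟩
      exact ⟨f, (dir_iff ε f).1 h1, (hE f).2 h3, h2⟩

theorem ord_iff {d : ℕ} (σ : Bool → Equiv.Perm (Fin d)) (ε : Fin d → Bool) :
    Ordd σ ε ↔ P0 (σ false) (σ true) ε := by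
  constructor
  · rintro ⟨f, h1, h2⟩
    exact ⟨f, h1, h2 true, h2 false⟩
  · rintro ⟨f, h1, h2, h3⟩
    refine ⟨f, h1, ?_⟩
    intro b
    cases b
    · exact h3
    · exact h2

theorem cyc_iff {d : ℕ} (σ : Bool → Equiv.Perm (Fin d)) (ε : Fin d → Bool) :
    Cycc σ ε ↔ P2 (σ false) (σ true) ε := by
  constructor
  · rintro ⟨f, h1, h2⟩
    exact ⟨f, h1, h2 true, h2 false⟩
  · rintro ⟨f, h1, h2, h3⟩
    refine ⟨f, h1, ?_⟩
    intro b
    cases b
    · exact h3
    · exact h2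

theorem t (h : S_TL) : S_TLL := by
  intro d
  calc Nat.card {p : (Bool → Equiv.Perm (Fin d)) × (Fin d → Bool) // Ordd p.1 p.2}
      = Nat.card {p : (Bool → Equiv.Perm (Fin d)) × (Fin d → Bool) //
          P0 (p.1 false) (p.1 true) p.2} :=
        Nat.card_congr (Equiv.subtypeEquivRight fun p => ord_iff p.1 p.2)
    _ = ∑ q : Equiv.Perm (Fin d) × (Fin d → Bool),
        Nat.card {σ : Equiv.Perm (Fin d) // P0 σ q.1 q.2} := card_false P0
    _ = ∑ q : Equiv.Perm (Fin d) × (Fin d → Bool),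
        Nat.card {σ : Equiv.Perm (Fin d) // P1 σ q.1 q.2} :=
        Finset.sum_congr rfl fun q _ => step1 h q.1 q.2
    _ = Nat.card {p : (Bool → Equiv.Perm (Fin d)) × (Fin d → Bool) //
          P1 (p.1 false) (p.1 true) p.2} := (card_false P1).symm
    _ = ∑ q : Equiv.Perm (Fin d) × (Fin d → Bool),
        Nat.card {σ : Equiv.Perm (Fin d) // P1 q.1 σ q.2} := card_true P1
    _ = ∑ q : Equiv.Perm (Fin d) × (Fin d → Bool),
        Nat.card {σ : Equiv.Perm (Fin d) // P2 q.1 σ q.2} :=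
        Finset.sum_congr rfl fun q _ => step2 h q.1 q.2
    _ = Nat.card {p : (Bool → Equiv.Perm (Fin d)) × (Fin d → Bool) //
          P2 (p.1 false) (p.1 true) p.2} := (card_true P2).symm
    _ = Nat.card {p : (Bool → Equiv.Perm (Fin d)) × (Fin d → Bool) // Cycc p.1 p.2} :=
        Nat.card_congr (Equiv.subtypeEquivRight fun p => (cyc_iff p.1 p.2).symm)

end Pool.Agent.Helper55.AD2.TLL
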